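import Pool.Agent.MWE.Stmts

/-!
# Squad MWE (MP_23468a_al), row XCH (helper66)
-/

set_option autoImplicit false

namespace Pool.Agent.MWE.H66

open Pool.Agent.Helper14_MV Pool.Agent.Helper2_MV Pool.Agent.MVD Pool.Agent.MWE

variable {β : FIC}

/-- the mirror image of `I2` -/
theorem i2r (i2 : I2 β) (p c d q : List ℕ) (x : ℕ)
    (hm : ∀ a ∈ c ++ d, 2 ≤ (p ++ x :: (c ++ x :: (d ++ x :: q))).count a) :
    RR β (p ++ x :: (c ++ x :: (d ++ x :: q))) (p ++ x :: (c ++ (d ++ x :: x :: q))) := by
  have h1 := i2 p c d q x hm
  have h2 := i2 p (c ++ d) [] q x (by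
    intro a ha
    rw [List.append_nil] at ha
    have h3 := hm a ha
    have h4 : (p ++ x :: ((c ++ d) ++ x :: ([] ++ x :: q))).count a =
        (p ++ x :: (c ++ x :: (d ++ x :: q))).count a := by
      simp only [List.count_append, List.count_cons, List.count_nil]
      ring
    rw [h4]
    exact h3)
  rw [List.nil_append, List.append_assoc, List.append_assoc] at h2
  exact β.trans h1 (RR.symm h2)

/-- moving letters to the left -/
theorem mvl (i2 : I2 β) (v : ℕ) (G : List ℕ) : ∃ S G' : List ℕ, v ∉ G' ∧
    (∀ u, S.count u + G'.count u = G.count u) ∧ ∀ P c1 H : List ℕ,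
      (∀ a ∈ c1 ++ G, 2 ≤ (P ++ v :: (c1 ++ (G ++ v :: H))).count a) →
        RR β (P ++ v :: (c1 ++ (G ++ v :: H))) (P ++ v :: (S ++ (c1 ++ (G' ++ v :: H)))) := by
  induction G with
  | nil => exact ⟨[], [], List.not_mem_nil, fun u => rfl, fun P c1 H _ => RR.refl _⟩
  | cons a G ihG =>
    obtain ⟨S, G', hv, hc, hr⟩ := ihG
    by_cases hav : a = v
    · subst hav
      refine ⟨a :: S, G', hv, fun u => ?_, fun P c1 H hm => ?_⟩
      · have := hc u
        simp only [List.count_cons] at this ⊢
        omega
      · have h1 := i2 P c1 G H a (fun u hu => by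
          refine hm u ?_
          rcases List.mem_append.1 hu with h | h
          · exact List.mem_append_left _ h
          · exact List.mem_append_right _ (List.mem_cons_of_mem _ h))
        have h2 := hr (P ++ [a]) c1 H (fun u hu => by
          have h3 := hm u (by
            rcases List.mem_append.1 hu with h | h
            · exact List.mem_append_left _ h
            · exact List.mem_append_right _ (List.mem_cons_of_mem _ h))
          have h4 : ((P ++ [a]) ++ a :: (c1 ++ (G ++ a :: H))).count u =
              (P ++ a :: (c1 ++ (a :: G ++ a :: H))).count u := by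
            simp only [List.count_append, List.count_cons, List.count_nil]
            ring
          rw [h4]
          exact h3)
        rw [List.append_assoc, List.append_assoc] at h2
        exact β.trans h1 h2
    · refine ⟨S, a :: G', ?_, fun u => ?_, fun P c1 H hm => ?_⟩
      · rw [List.mem_cons, not_or]
        exact ⟨fun h => hav h.symm, hv⟩
      · have := hc u
        simp only [List.count_cons] at this ⊢
        omega
      · have h2 := hr P (c1 ++ [a]) H (fun u hu => by
          have h3 := hm u (by
            rw [List.append_assoc] at hu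
            exact hu)
          have h4 : (P ++ v :: ((c1 ++ [a]) ++ (G ++ v :: H))).count u =
              (P ++ v :: (c1 ++ (a :: G ++ v :: H))).count u := by
            simp only [List.count_append, List.count_cons, List.count_nil]
            ring
          rw [h4]
          exact h3)
        rw [List.append_assoc, List.append_assoc] at h2
        exact h2

/-- moving letters to the right -/
theorem mvr (i2 : I2 β) (v : ℕ) (G : List ℕ) : ∃ S G' : List ℕ, v ∉ G' ∧
    (∀ u, S.count u + G'.count u = G.count u) ∧ ∀ P c0 c1 H : List ℕ,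
      (∀ a ∈ c0 ++ (G ++ c1), 2 ≤ (P ++ v :: (c0 ++ (G ++ (c1 ++ v :: H)))).count a) →
        RR β (P ++ v :: (c0 ++ (G ++ (c1 ++ v :: H))))
          (P ++ v :: (c0 ++ (G' ++ (c1 ++ v :: (S ++ H))))) := by
  induction G with
  | nil => exact ⟨[], [], List.not_mem_nil, fun u => rfl, fun P c0 c1 H _ => RR.refl _⟩
  | cons a G ihG =>
    obtain ⟨S, G', hv, hc, hr⟩ := ihG
    by_cases hav : a = v
    · subst hav
      refine ⟨S ++ [a], G', hv, fun u => ?_, fun P c0 c1 H hm => ?_⟩
      · have := hc u
        simp only [List.count_cons, List.count_append, List.count_nil] at this ⊢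
        omega
      · have hmem : ∀ u, u ∈ c0 ++ (G ++ c1) → u ∈ c0 ++ (a :: G ++ c1) := by
          intro u hu
          rcases List.mem_append.1 hu with h | h
          · exact List.mem_append_left _ h
          · exact List.mem_append_right _ (List.mem_cons_of_mem _ h)
        have h1 := i2r i2 P c0 (G ++ c1) H a (fun u hu => by
          have h3 := hm u (hmem u hu)
          have h4 : (P ++ a :: (c0 ++ a :: ((G ++ c1) ++ a :: H))).count u =
              (P ++ a :: (c0 ++ (a :: G ++ (c1 ++ a :: H)))).count u := by
            simp only [List.count_append, List.count_cons]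
            ring
          rw [h4]
          exact h3)
        have h2 := hr P c0 c1 (a :: H) (fun u hu => by
          have h3 := hm u (hmem u hu)
          have h4 : (P ++ a :: (c0 ++ (G ++ (c1 ++ a :: (a :: H))))).count u =
              (P ++ a :: (c0 ++ (a :: G ++ (c1 ++ a :: H)))).count u := by
            simp only [List.count_append, List.count_cons]
            ring
          rw [h4]
          exact h3)
        rw [List.append_assoc, List.append_assoc] at h1
        rw [List.append_assoc]
        exact β.trans h1 h2
    · refine ⟨S, a :: G', ?_, fun u => ?_, fun P c0 c1 H hm => ?_⟩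
      · rw [List.mem_cons, not_or]
        exact ⟨fun h => hav h.symm, hv⟩
      · have := hc u
        simp only [List.count_cons] at this ⊢
        omega
      · have h2 := hr P (c0 ++ [a]) c1 H (fun u hu => by
          have h3 := hm u (by
            rw [List.append_assoc] at hu
            exact hu)
          have h4 : (P ++ v :: ((c0 ++ [a]) ++ (G ++ (c1 ++ v :: H)))).count u =
              (P ++ v :: (c0 ++ (a :: G ++ (c1 ++ v :: H)))).count u := by
            simp only [List.count_append, List.count_cons, List.count_nil]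
            ring
          rw [h4]
          exact h3)
        rw [List.append_assoc, List.append_assoc] at h2
        exact h2

theorem bw_append (R1 R2 : List ℕ) (B : ℕ → List ℕ) : Bw (R1 ++ R2) B = Bw R1 B ++ Bw R2 B := by
  unfold Bw
  rw [List.flatMap_append]

theorem bw_cons (r : ℕ) (R : List ℕ) (B : ℕ → List ℕ) :
    Bw (r :: R) B = B r ++ (3 * r + 2) :: Bw R B := by
  unfold Bw
  rw [List.flatMap_cons, List.append_assoc]
  rfl

theorem bw_up (R : List ℕ) (B : ℕ → List ℕ) (r : ℕ) (D : List ℕ) (h : r ∉ R) :
    Bw R (up B r D) = Bw R B := by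
  induction R with
  | nil => rfl
  | cons a R ih =>
    rw [List.mem_cons, not_or] at h
    rw [bw_cons, bw_cons, ih h.2]
    unfold up
    rw [if_neg (fun h' => h.1 h'.symm)]

theorem last_occ {v : ℕ} {g : List ℕ} (h : v ∈ g) : ∃ g1 g2, g = g1 ++ v :: g2 ∧ v ∉ g2 := by
  obtain ⟨a, b, hab, hn⟩ := List.eq_append_cons_of_mem (List.mem_reverse.2 h)
  refine ⟨b.reverse, a.reverse, ?_, fun h' => hn (List.mem_reverse.1 h')⟩
  have h1 := congrArg List.reverse hab
  rw [List.reverse_reverse, List.reverse_append, List.reverse_cons, List.append_assoc] at h1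
  exact h1

/-- **XCH** -/
theorem xch (sma : SmaStmt) : XchStmt := by
  intro β m R c B e i2 hcan ih hR hb hBs D1 D2 A g C h0 h1 hor
  obtain ⟨R1, R2, R3, hRe⟩ := hb
  have hnd : R.Nodup := hR.nodup_iff.2 List.nodup_range
  have h1R : 1 ∈ R := by
    rw [hRe]
    simp
  obtain ⟨P, hP⟩ : ∃ P, P = Bw R1 B ++ D1 := ⟨_, rfl⟩
  obtain ⟨Q, hQ⟩ : ∃ Q, Q = D2 ++ (3 * 0 + 2) :: Bw R2 B := ⟨_, rfl⟩
  obtain ⟨T, hT⟩ : ∃ T, T = (3 * 1 + 2) :: (Bw R3 B ++ e) := ⟨_, rfl⟩
  have hw : Bw R B ++ e = P ++ 0 :: 3 :: (Q ++ (A ++ 0 :: (g ++ 3 :: (C ++ T)))) := by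
    rw [hRe, bw_append, bw_cons, bw_append, bw_cons, h0, h1, hP, hQ, hT]
    simp only [List.append_assoc, List.cons_append]
  have hw' : Bw R (up B 0 (D1 ++ 3 :: 0 :: D2)) ++ e =
      P ++ 3 :: 0 :: (Q ++ (A ++ 0 :: (g ++ 3 :: (C ++ T)))) := by
    rw [hRe] at hnd
    have hn1 : 0 ∉ R1 := fun h => (List.nodup_append.1 hnd).2.2 0 h 0 (by simp) rfl
    have hn2 : 0 ∉ R2 ++ 1 :: R3 := (List.nodup_cons.1 (List.nodup_append.1 hnd).2.1).1
    rw [List.mem_append, not_or, List.mem_cons, not_or] at hn2
    have e0 : up B 0 (D1 ++ 3 :: 0 :: D2) 0 = D1 ++ 3 :: 0 :: D2 := if_pos rfl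
    have e1 : up B 0 (D1 ++ 3 :: 0 :: D2) 1 = B 1 := if_neg one_ne_zero
    rw [hRe, bw_append, bw_cons, bw_append, bw_cons, bw_up _ _ _ _ hn1, bw_up _ _ _ _ hn2.1,
      bw_up _ _ _ _ hn2.2.2, e0, e1, h1, hP, hQ, hT]
    simp only [List.append_assoc, List.cons_append]
  -- letters of block 1
  have hin : ∀ u ∈ B 1, u ∈ Bw R B ++ e := by
    intro u hu
    refine List.mem_append_left _ ?_
    unfold Bw
    exact List.mem_flatMap.2 ⟨1, h1R, List.mem_append_left _ hu⟩
  have hmu : ∀ u ∈ B 1, 2 ≤ (P ++ 0 :: 3 :: (Q ++ (A ++ 0 :: (g ++ 3 :: (C ++ T))))).count u := by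
    intro u hu
    rw [← hw]
    exact hBs.mu u (hin u hu) (hBs.sf 1 u hu)
  have hct : ∀ u ∈ B 1, u = 0 ∨ u = 3 ∨ u ∈ c := fun u hu =>
    hBs.ct u (hin u hu) (hBs.sf 1 u hu)
  have c0 := hBs.x1
  have c3 := hBs.y1
  rw [h1] at c0 c3
  simp only [List.count_append, List.count_cons, BEq.rfl, if_true] at c0 c3
  have hA0 : 0 ∉ A := fun h => by
    have := List.count_pos_iff.2 h
    omega
  have hg0 : 0 ∉ g := fun h => by
    have := List.count_pos_iff.2 h
    omega
  have hC0 : 0 ∉ C := fun h => by
    have := List.count_pos_iff.2 h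
    omega
  have hA3 : 3 ∉ A := fun h => by
    have := List.count_pos_iff.2 h
    omega
  have hg3 : 3 ∉ g := fun h => by
    have := List.count_pos_iff.2 h
    omega
  have hC3 : 3 ∉ C := fun h => by
    have := List.count_pos_iff.2 h
    omega
  have hAB : ∀ u ∈ A, u ∈ B 1 := fun u hu => by
    rw [h1]
    exact List.mem_append_left _ hu
  have hgB : ∀ u ∈ g, u ∈ B 1 := fun u hu => by
    rw [h1]
    exact List.mem_append_right _ (List.mem_cons_of_mem _ (List.mem_append_left _ hu))
  have hCB : ∀ u ∈ C, u ∈ B 1 := fun u hu => by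
    rw [h1]
    exact List.mem_append_right _ (List.mem_cons_of_mem _ (List.mem_append_right _
      (List.mem_cons_of_mem _ hu)))
  have h0B : 0 ∈ B 1 := by
    rw [h1]
    simp
  have h3B : 3 ∈ B 1 := by
    rw [h1]
    simp
  have hgc : ∀ u ∈ g, u ∈ c := fun u hu =>
    ((hct u (hgB u hu)).resolve_left fun h => hg0 (h ▸ hu)).resolve_left fun h => hg3 (h ▸ hu)
  have hAc : ∀ u ∈ A, u ∈ c := fun u hu =>
    ((hct u (hAB u hu)).resolve_left fun h => hA0 (h ▸ hu)).resolve_left fun h => hA3 (h ▸ hu)
  have hCc : ∀ u ∈ C, u ∈ c := fun u hu =>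
    ((hct u (hCB u hu)).resolve_left fun h => hC0 (h ▸ hu)).resolve_left fun h => hC3 (h ▸ hu)
  have hgl : ∀ d < m, g.count (3 * d + 1) ≤ 1 := by
    intro d hd
    have h2 := hBs.li d hd 1 h1R
    rw [if_pos (Or.inl rfl), h1] at h2
    simp only [List.count_append, List.count_cons] at h2
    omega
  rw [hw, hw']
  by_cases hall : ∃ a ∈ c, a ∉ g
  · obtain ⟨a, ha, hag⟩ := hall
    have hs : Sm g c := (sma m c hcan).2.1 g a hgc ha hag
    have hf := (ih g hs).1 P (Q ++ A) (C ++ T) 0 3 (fun u hu => by
      have h2 := hmu u (hgB u hu)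
      rw [List.append_assoc]
      exact h2)
    rw [List.append_assoc] at hf
    exact hf
  · push Not at hall
    -- a letter of `A` or `C` is a local letter
    have hloc : ∀ v ∈ c, (v ∈ A ∨ v ∈ C) → 2 ≤ c.count v := by
      intro v hvc hv
      rcases hcan.lo v hvc with ⟨d, hd, hvd⟩ | h2
      · exfalso
        have h2 := hBs.li d hd 1 h1R
        rw [if_pos (Or.inl rfl), h1, ← hvd] at h2
        have h3 := List.count_pos_iff.2 (hall v hvc)
        simp only [List.count_append, List.count_cons] at h2
        rcases hv with hv | hv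
        · have h4 := List.count_pos_iff.2 hv
          omega
        · have h4 := List.count_pos_iff.2 hv
          omega
      · exact h2.2.2
    have hor' : A ≠ [] ∨ C ≠ [] := by
      rcases hor with h | h
      · obtain ⟨a, ha, hag⟩ := h
        exact absurd (hall a ha) hag
      · exact h
    rcases hor' with hA | hC
    · -- `A = v :: A2`
      obtain ⟨v, A2, rfl⟩ := List.exists_cons_of_ne_nil hA
      have hvc : v ∈ c := hAc v List.mem_cons_self
      have hv2 : 2 ≤ c.count v := hloc v hvc (Or.inl List.mem_cons_self)
      obtain ⟨g1, g2, rfl, hvg⟩ := last_occ (hall v hvc)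
      obtain ⟨S, G', hvG, hcG, hr⟩ := mvl i2 v g1
      have key : ∀ X : List ℕ, (∀ u, X.count u = [0, 3].count u) →
          RR β (P ++ (X ++ (Q ++ (v :: A2 ++ 0 :: (g1 ++ v :: g2 ++ 3 :: (C ++ T))))))
            (P ++ (X ++ ((Q ++ v :: (S ++ A2)) ++ 0 :: ((G' ++ v :: g2) ++ 3 :: (C ++ T))))) := by
        intro X hX
        have h2 := hr (P ++ (X ++ Q)) (A2 ++ [0]) (g2 ++ 3 :: (C ++ T)) (fun u hu => by
          have h3 : u ∈ B 1 := by
            rw [List.append_assoc] at hu
            rcases List.mem_append.1 hu with h | h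
            · exact hAB u (List.mem_cons_of_mem _ h)
            · rcases List.mem_append.1 h with h | h
              · rw [List.mem_singleton] at h
                rw [h]
                exact h0B
              · exact hgB u (List.mem_append_left _ h)
          have h4 := hmu u h3
          have h5 := hX u
          simp only [List.count_append, List.count_cons, List.count_nil] at h4 h5 ⊢
          omega)
        simp only [List.append_assoc, List.cons_append, List.nil_append] at h2 ⊢
        exact h2
      have hcnt : ∀ u ∈ G' ++ v :: g2, u ∈ g1 ++ v :: g2 := by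
        intro u hu
        rcases List.mem_append.1 hu with h | h
        · have h2 := List.count_pos_iff.2 h
          have h3 := hcG u
          exact List.mem_append_left _ (List.count_pos_iff.1 (by omega))
        · exact List.mem_append_right _ h
      have hs : Sm (G' ++ v :: g2) c := by
        refine (sma m c hcan).2.2 _ v (fun u hu => hgc u (hcnt u hu)) (fun d hd => ?_) hvc hv2 ?_
        · have h2 := hgl d hd
          have h3 := hcG (3 * d + 1)
          simp only [List.count_append, List.count_cons] at h2 ⊢
          omega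
        · rw [List.count_append, List.count_cons_self, List.count_eq_zero.2 hvG,
            List.count_eq_zero.2 hvg]
      have hf := (ih _ hs).1 P (Q ++ v :: (S ++ A2)) (C ++ T) 0 3 (fun u hu => by
        have h2 := hmu u (hgB u (hcnt u hu))
        have h3 := hcG u
        simp only [List.count_append, List.count_cons] at h2 ⊢
        omega)
      exact β.trans (β.trans (key [0, 3] fun u => rfl) hf)
        (RR.symm (key [3, 0] fun u => (List.Perm.swap 0 3 []).count_eq u))
    · obtain ⟨v, C2, rfl⟩ := List.exists_cons_of_ne_nil hC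
      have hvc : v ∈ c := hCc v List.mem_cons_self
      have hv2 : 2 ≤ c.count v := hloc v hvc (Or.inr List.mem_cons_self)
      obtain ⟨g1, g2, rfl, hvg⟩ := List.eq_append_cons_of_mem (hall v hvc)
      obtain ⟨S, G', hvG, hcG, hr⟩ := mvr i2 v g2
      have key : ∀ X : List ℕ, (∀ u, X.count u = [0, 3].count u) →
          RR β (P ++ (X ++ (Q ++ (A ++ 0 :: (g1 ++ v :: g2 ++ 3 :: (v :: C2 ++ T))))))
            (P ++ (X ++ ((Q ++ A) ++ 0 :: ((g1 ++ v :: G') ++ 3 :: (v :: (S ++ (C2 ++ T))))))) := by
        intro X hX
        have h2 := hr (P ++ (X ++ (Q ++ (A ++ 0 :: g1)))) [] [3] (C2 ++ T) (fun u hu => by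
          have h3 : u ∈ B 1 := by
            rw [List.nil_append] at hu
            rcases List.mem_append.1 hu with h | h
            · exact hgB u (List.mem_append_right _ (List.mem_cons_of_mem _ h))
            · rw [List.mem_singleton] at h
              rw [h]
              exact h3B
          have h4 := hmu u h3
          have h5 := hX u
          simp only [List.count_append, List.count_cons, List.count_nil] at h4 h5 ⊢
          omega)
        simp only [List.append_assoc, List.cons_append, List.nil_append] at h2 ⊢
        exact h2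
      have hcnt : ∀ u ∈ g1 ++ v :: G', u ∈ g1 ++ v :: g2 := by
        intro u hu
        rcases List.mem_append.1 hu with h | h
        · exact List.mem_append_left _ h
        · rcases List.mem_cons.1 h with h | h
          · rw [h]
            exact List.mem_append_right _ List.mem_cons_self
          · have h2 := List.count_pos_iff.2 h
            have h3 := hcG u
            exact List.mem_append_right _ (List.mem_cons_of_mem _
              (List.count_pos_iff.1 (by omega)))
      have hs : Sm (g1 ++ v :: G') c := by
        refine (sma m c hcan).2.2 _ v (fun u hu => hgc u (hcnt u hu)) (fun d hd => ?_) hvc hv2 ?_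
        · have h2 := hgl d hd
          have h3 := hcG (3 * d + 1)
          simp only [List.count_append, List.count_cons] at h2 ⊢
          omega
        · rw [List.count_append, List.count_cons_self, List.count_eq_zero.2 hvG,
            List.count_eq_zero.2 hvg]
      have hf := (ih _ hs).1 P (Q ++ A) (v :: (S ++ (C2 ++ T))) 0 3 (fun u hu => by
        have h2 := hmu u (hgB u (hcnt u hu))
        have h3 := hcG u
        simp only [List.count_append, List.count_cons] at h2 ⊢
        omega)
      exact β.trans (β.trans (key [0, 3] fun u => rfl) hf)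
        (RR.symm (key [3, 0] fun u => (List.Perm.swap 0 3 []).count_eq u))

end Pool.Agent.MWE.H66
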